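import Pool.Agent.W837.GB.Defs

set_option autoImplicit false

open Pool.Agent.W837.GB
set_option linter.unusedSectionVars false

namespace Pool.Agent.W18.GB

/-- expansion of the determinant of a product over all functions -/
theorem det_mul_expand {S ι : Type} [CommRing S] [Fintype ι] {r : ℕ} (A : Matrix (Fin r) ι S)
    (V : Matrix ι (Fin r) S) :
    (A * V).det = ∑ s : Fin r → ι, (∏ i, A i (s i)) * (V.submatrix s id).det := by
  classical
  have h : (A * V) = fun i => ∑ x, A i x • V x := by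
    ext i j
    simp [Matrix.mul_apply, Finset.sum_apply]
  have h2 := (Matrix.detRowAlternating (R := S) (n := Fin r)).toMultilinearMap.map_sum
    (fun i (x : ι) => A i x • V x)
  have h3 : (A * V).det = (Matrix.detRowAlternating (R := S) (n := Fin r)).toMultilinearMap
      (fun i => ∑ x, A i x • V x) := by rw [h]; rfl
  rw [h3, h2]
  refine Finset.sum_congr rfl fun s _ => ?_
  rw [MultilinearMap.map_smul_univ, smul_eq_mul]
  rfl

/-- the vector of minors indexed by all functions -/
def mnr {S ι : Type} [CommRing S] {r : ℕ} (V : Matrix ι (Fin r) S) : (Fin r → ι) → S :=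
  fun s => (V.submatrix s id).det

/-- the induced action on vectors of minors -/
def Lm {S ι : Type} [CommRing S] [Fintype ι] {r : ℕ} (H : Matrix ι ι S) (w : (Fin r → ι) → S) :
    (Fin r → ι) → S :=
  fun s => ∑ s' : Fin r → ι, (∏ i, H (s i) (s' i)) * w s'

section
variable {S ι : Type} [CommRing S] [Fintype ι] {r : ℕ}

theorem mnr_mul (H : Matrix ι ι S) (V : Matrix ι (Fin r) S) : mnr (H * V) = Lm H (mnr V) := by
  funext s
  have h : (H * V).submatrix s id = H.submatrix s id * V := by
    ext i j; simp [Matrix.mul_apply]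
  rw [mnr, h, det_mul_expand]
  rfl

theorem mnr_mul_right (V : Matrix ι (Fin r) S) (T : Matrix (Fin r) (Fin r) S) (s : Fin r → ι) :
    mnr (V * T) s = mnr V s * T.det := by
  have h : (V * T).submatrix s id = V.submatrix s id * T := by
    ext i j; simp [Matrix.mul_apply]
  rw [mnr, h, Matrix.det_mul]
  rfl

theorem Lm_Lm (H H' : Matrix ι ι S) (w : (Fin r → ι) → S) : Lm H (Lm H' w) = Lm (H * H') w := by
  classical
  funext s
  simp only [Lm, Finset.mul_sum]
  rw [Finset.sum_comm]
  refine Finset.sum_congr rfl fun s'' _ => ?_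
  have h : (∏ i, (H * H') (s i) (s'' i)) =
      ∑ s' : Fin r → ι, ∏ i, (H (s i) (s' i) * H' (s' i) (s'' i)) := by
    simp only [Matrix.mul_apply]
    rw [Finset.prod_univ_sum]
    simp [Fintype.piFinset_univ]
  rw [h, Finset.sum_mul]
  refine Finset.sum_congr rfl fun s' _ => ?_
  rw [Finset.prod_mul_distrib]
  ring

theorem Lm_one [DecidableEq ι] (w : (Fin r → ι) → S) : Lm (1 : Matrix ι ι S) w = w := by
  classical
  funext s
  rw [Lm, Finset.sum_eq_single s]
  · simp
  · intro s' _ hs'
    have : ∃ i, s i ≠ s' i := by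
      by_contra hcon
      push Not at hcon
      exact hs' (funext fun i => (hcon i).symm)
    obtain ⟨i, hi⟩ := this
    have h0 : (1 : Matrix ι ι S) (s i) (s' i) = 0 := Matrix.one_apply_ne hi
    rw [Finset.prod_eq_zero (Finset.mem_univ i) h0, zero_mul]
  · intro h; exact absurd (Finset.mem_univ _) h

theorem Lm_smul_left (z : S) (H : Matrix ι ι S) (w : (Fin r → ι) → S) (s : Fin r → ι) :
    Lm (z • H) w s = z ^ r * Lm H w s := by
  simp only [Lm, Matrix.smul_apply, smul_eq_mul, Finset.mul_sum]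
  refine Finset.sum_congr rfl fun s' _ => ?_
  rw [Finset.prod_mul_distrib, Finset.prod_const, Finset.card_univ, Fintype.card_fin]
  ring

theorem Lm_mul_const (z : S) (H : Matrix ι ι S) (w : (Fin r → ι) → S) (s : Fin r → ι) :
    Lm H (fun s => z * w s) s = z * Lm H w s := by
  simp only [Lm, Finset.mul_sum]
  refine Finset.sum_congr rfl fun s' _ => ?_
  ring

theorem Lm_map {S' : Type} [CommRing S'] (f : S →+* S') (H : Matrix ι ι S)
    (w : (Fin r → ι) → S) (s : Fin r → ι) :
    f (Lm H w s) = Lm (H.map f) (fun s => f (w s)) s := by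
  simp only [Lm, map_sum, map_mul, map_prod, Matrix.map_apply]

theorem mnr_map {S' : Type} [CommRing S'] (f : S →+* S') (V : Matrix ι (Fin r) S)
    (s : Fin r → ι) : f (mnr V s) = mnr (V.map f) s := by
  rw [mnr, RingHom.map_det]
  rfl

end

/-! ### clock and shift -/

/-- the clock matrix -/
def clk (N : ℕ) (ζ : ℂ) : Matrix (Fin N) (Fin N) ℂ := Matrix.diagonal fun i => ζ ^ (i : ℕ)

/-- the shift matrix -/
def shf (N : ℕ) [NeZero N] : Matrix (Fin N) (Fin N) ℂ := fun k l => if l = k + 1 then 1 else 0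

theorem clk_inv (N : ℕ) (ζ : ℂ) (h : ζ ≠ 0) : clk N ζ * clk N ζ⁻¹ = 1 := by
  rw [clk, clk, Matrix.diagonal_mul_diagonal, ← Matrix.diagonal_one]
  congr 1
  funext i
  rw [← mul_pow, mul_inv_cancel₀ h, one_pow]

theorem shf_inv (N : ℕ) [NeZero N] : shf N * (shf N).transpose = 1 := by
  ext k l
  rw [Matrix.mul_apply, Finset.sum_eq_single (k + 1)]
  · simp only [shf, Matrix.transpose_apply, if_true, one_mul, Matrix.one_apply]
    by_cases h : k = l
    · simp [h]
    · rw [if_neg, if_neg h]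
      intro h2
      exact h (add_right_cancel h2)
  · intro b _ hb
    simp [shf, hb]
  · intro h; exact absurd (Finset.mem_univ _) h

theorem shf_clk (N : ℕ) [NeZero N] (ζ : ℂ) (h : ζ ^ N = 1) :
    shf N * clk N ζ = ζ • (clk N ζ * shf N) := by
  ext k l
  rw [clk, Matrix.mul_diagonal, Matrix.smul_apply, Matrix.diagonal_mul, smul_eq_mul, shf]
  split_ifs with hl
  · subst hl
    rw [one_mul, mul_one, Fin.val_add]
    rw [← pow_succ']
    have h1 : ((1 : Fin N) : ℕ) = 1 % N := by
      rw [Fin.val_one']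
    rw [h1, Nat.add_mod_mod, ← pow_eq_pow_mod _ h]
  · simp

/-! ### rank of the generic matrix -/

/-- rank factorisation: `P * A * Q = 1` with `P, Q` of size the rank -/
theorem exists_factor {ι : Type} [Fintype ι] [DecidableEq ι] {F : Type} [Field F]
    (A : Matrix ι ι F) : ∃ (P : Matrix (Fin A.rank) ι F) (Q : Matrix ι (Fin A.rank) F),
      P * A * Q = 1 := by
  classical
  let V := LinearMap.range A.mulVecLin
  have hV : Module.finrank F V = A.rank := rfl
  let b := Module.finBasisOfFinrankEq F V hV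
  have hb : ∀ i, ∃ y : ι → F, A.mulVec y = (b i : ι → F) := by
    intro i
    obtain ⟨y, hy⟩ := (b i).2
    exact ⟨y, by simpa using hy⟩
  choose y hy using hb
  let Q : Matrix ι (Fin A.rank) F := fun x i => y i x
  have hAQ : ∀ i x, (A * Q) x i = (b i : ι → F) x := by
    intro i x
    rw [← hy i]
    rfl
  have hinj : Function.Injective (A * Q).mulVecLin := by
    rw [← LinearMap.ker_eq_bot, LinearMap.ker_eq_bot']
    intro c hc
    have h1 : ∑ i, c i • (b i : ι → F) = 0 := by
      rw [← hc]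
      funext x
      rw [Finset.sum_apply, Matrix.mulVecLin_apply, Matrix.mulVec, dotProduct]
      refine Finset.sum_congr rfl fun i _ => ?_
      rw [hAQ, Pi.smul_apply, smul_eq_mul, mul_comm]
    have h2 : ∑ i, c i • b i = 0 := by
      apply Subtype.ext
      simpa using h1
    have h3 := Fintype.linearIndependent_iff.1 b.linearIndependent c h2
    exact funext h3
  obtain ⟨g, hg⟩ := LinearMap.exists_leftInverse_of_injective (A * Q).mulVecLin
    (LinearMap.ker_eq_bot.2 hinj)
  refine ⟨LinearMap.toMatrix' g, Q, ?_⟩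
  have h4 : LinearMap.toMatrix' (g.comp (A * Q).mulVecLin) = 1 := by
    rw [hg, LinearMap.toMatrix'_id]
  rw [LinearMap.toMatrix'_comp] at h4
  have h5 : LinearMap.toMatrix' (A * Q).mulVecLin = A * Q := LinearMap.toMatrix'_toLin' _
  rw [h5] at h4
  rw [Matrix.mul_assoc]
  exact h4


theorem rank_le_of_spec {R F K ι : Type} [CommRing R] [IsDomain R] [Field F] [Field K] [Algebra R K]
    [IsFractionRing R K] [Fintype ι] [DecidableEq ι] [Algebra F R] (ev : R →ₐ[F] F)
    (B : Matrix ι ι R) : (B.map ev).rank ≤ (B.map (algebraMap R K)).rank := by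
  classical
  obtain ⟨P, Q, h⟩ := exists_factor (B.map ev)
  let P' : Matrix (Fin (B.map ev).rank) ι R := P.map (algebraMap F R)
  let Q' : Matrix ι (Fin (B.map ev).rank) R := Q.map (algebraMap F R)
  have h1 : ev ((P' * B * Q').det) = 1 := by
    have h2 : ev ((P' * B * Q').det) = ((P' * B * Q').map ev).det := by
      have := RingHom.map_det ev.toRingHom (P' * B * Q')
      exact this
    have h3 : (P' * B * Q').map ev = P * B.map ev * Q := by
      have e1 : P'.map ev = P := by
        ext i j; simp [P', Matrix.map_apply]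
      have e2 : Q'.map ev = Q := by
        ext i j; simp [Q', Matrix.map_apply]
      have e3 := Matrix.map_mul (L := P' * B) (M := Q') (f := ev.toRingHom)
      have e4 := Matrix.map_mul (L := P') (M := B) (f := ev.toRingHom)
      have e5 : (P' * B * Q').map ev = (P'.map ev * B.map ev) * Q'.map ev := by
        calc (P' * B * Q').map ev = (P' * B).map ev * Q'.map ev := e3
          _ = _ := by
            congr 1
      rw [e5, e1, e2]
    rw [h2, h3, h, Matrix.det_one]
  have h2 : (P' * B * Q').det ≠ 0 := by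
    intro h0
    rw [h0, map_zero] at h1
    exact zero_ne_one h1
  have h3 : ((P' * B * Q').map (algebraMap R K)).det ≠ 0 := by
    have h4 := RingHom.map_det (algebraMap R K) (P' * B * Q')
    rw [RingHom.mapMatrix_apply] at h4
    rw [← h4]
    intro h0
    exact h2 ((map_eq_zero_iff _ (IsFractionRing.injective R K)).1 h0)
  have h5 : (P' * B * Q').map (algebraMap R K) =
      P'.map (algebraMap R K) * B.map (algebraMap R K) * Q'.map (algebraMap R K) := by
    rw [Matrix.map_mul, Matrix.map_mul]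
  rw [h5] at h3
  have h6 : (P'.map (algebraMap R K) * B.map (algebraMap R K) * Q'.map (algebraMap R K)).rank =
      (B.map ev).rank := by
    rw [Matrix.rank_of_isUnit _ ((Matrix.isUnit_iff_isUnit_det _).2 (isUnit_iff_ne_zero.2 h3)),
      Fintype.card_fin]
  rw [← h6]
  exact (Matrix.rank_mul_le_left _ _).trans (Matrix.rank_mul_le_right _ _)

/-- kernel of a square matrix over a domain, by a matrix over the domain -/
theorem exists_kernel {R K ι : Type} [CommRing R] [IsDomain R] [Field K] [Algebra R K]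
    [IsFractionRing R K] [Fintype ι] [DecidableEq ι] (B : Matrix ι ι R) :
    ∃ (r : ℕ) (V : Matrix ι (Fin r) R), r + (B.map (algebraMap R K)).rank = Fintype.card ι ∧
      B * V = 0 ∧ mnr V ≠ 0 ∧
      ∀ y : ι → K, (B.map (algebraMap R K)).mulVec y = 0 →
        ∃ c : Fin r → K, y = (V.map (algebraMap R K)).mulVec c := by
  classical
  set A := B.map (algebraMap R K) with hA
  set W := LinearMap.ker A.mulVecLin with hW
  have hr : Module.finrank K W + A.rank = Fintype.card ι := by
    have := LinearMap.finrank_range_add_finrank_ker A.mulVecLin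
    rw [Module.finrank_fintype_fun_eq_card] at this
    rw [add_comm]
    exact this
  let b := Module.finBasis K W
  let V0 : Matrix ι (Fin (Module.finrank K W)) K := fun x i => (b i : ι → K) x
  have hsum : ∀ c : Fin (Module.finrank K W) → K, V0.mulVec c = ((∑ i, c i • b i : W) : ι → K) := by
    intro c
    funext x
    rw [Matrix.mulVec, dotProduct, Submodule.coe_sum, Finset.sum_apply]
    refine Finset.sum_congr rfl fun i _ => ?_
    rw [Submodule.coe_smul, Pi.smul_apply, smul_eq_mul, mul_comm]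
  have hspan : ∀ y : ι → K, A.mulVec y = 0 → ∃ c, y = V0.mulVec c := by
    intro y hy
    refine ⟨b.repr ⟨y, by rw [hW, LinearMap.mem_ker]; simpa using hy⟩, ?_⟩
    rw [hsum, b.sum_repr]
  have hker : A * V0 = 0 := by
    ext x i
    have h1 : A.mulVec (b i : ι → K) = 0 := by
      have := LinearMap.mem_ker.1 (b i).2
      exact this
    exact congrFun h1 x
  have hinj : Function.Injective V0.mulVecLin := by
    rw [← LinearMap.ker_eq_bot, LinearMap.ker_eq_bot']
    intro c hc
    have h1 : ∑ i, c i • b i = 0 := by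
      apply Subtype.ext
      rw [← hsum]
      simpa using hc
    exact funext (Fintype.linearIndependent_iff.1 b.linearIndependent c h1)
  obtain ⟨g, hg⟩ := LinearMap.exists_leftInverse_of_injective V0.mulVecLin
    (LinearMap.ker_eq_bot.2 hinj)
  have hG : LinearMap.toMatrix' g * V0 = 1 := by
    have h4 : LinearMap.toMatrix' (g.comp V0.mulVecLin) = 1 := by
      rw [hg, LinearMap.toMatrix'_id]
    rw [LinearMap.toMatrix'_comp] at h4
    have h5 : LinearMap.toMatrix' V0.mulVecLin = V0 := LinearMap.toMatrix'_toLin' _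
    rwa [h5] at h4
  -- clear denominators
  obtain ⟨d, hd⟩ := IsLocalization.exist_integer_multiples_of_finite (nonZeroDivisors R)
    (fun p : ι × Fin (Module.finrank K W) => V0 p.1 p.2)
  choose V1 hV1 using hd
  let V : Matrix ι (Fin (Module.finrank K W)) R := fun x i => V1 (x, i)
  have hd0 : algebraMap R K d ≠ 0 := by
    intro h0
    exact nonZeroDivisors.ne_zero d.2 ((map_eq_zero_iff _ (IsFractionRing.injective R K)).1 h0)
  have hV : V.map (algebraMap R K) = algebraMap R K d • V0 := by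
    ext x i
    have := hV1 (x, i)
    rw [Matrix.map_apply, Matrix.smul_apply, smul_eq_mul]
    rw [Algebra.smul_def] at this
    exact this
  refine ⟨_, V, hr, ?_, ?_, ?_⟩
  · have h1 : (B * V).map (algebraMap R K) = 0 := by
      rw [Matrix.map_mul, hV, Matrix.mul_smul, hker, smul_zero]
    ext x i
    have h2 := congrFun (congrFun h1 x) i
    rw [Matrix.map_apply, Matrix.zero_apply] at h2
    exact (map_eq_zero_iff _ (IsFractionRing.injective R K)).1 h2
  · intro h0
    have h1 : (LinearMap.toMatrix' g * V.map (algebraMap R K)).det ≠ 0 := by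
      rw [hV, Matrix.mul_smul, hG, Matrix.det_smul, Matrix.det_one, mul_one]
      exact pow_ne_zero _ hd0
    apply h1
    rw [det_mul_expand]
    refine Finset.sum_eq_zero fun s _ => ?_
    have h2 : ((V.map (algebraMap R K)).submatrix s id).det = 0 := by
      have h3 : mnr (V.map (algebraMap R K)) s = algebraMap R K (mnr V s) :=
        (mnr_map (algebraMap R K) V s).symm
      have h4 : mnr (V.map (algebraMap R K)) s = 0 := by
        rw [h3, h0, Pi.zero_apply, map_zero]
      exact h4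
    rw [h2, mul_zero]
  · intro y hy
    obtain ⟨c, hc⟩ := hspan y hy
    refine ⟨fun i => (algebraMap R K d)⁻¹ * c i, ?_⟩
    rw [hc, hV]
    funext x
    simp only [Matrix.mulVec, dotProduct, Matrix.smul_apply, smul_eq_mul]
    refine Finset.sum_congr rfl fun i _ => ?_
    field_simp


/-! ### the generic matrix -/

/-- the index type of the variables -/
abbrev Sg (n N : ℕ) : Type := Fin n × Fin N × Fin N

/-- polynomial ring of the generic matrices -/
abbrev RR (n N : ℕ) : Type := MvPolynomial (Sg n N) ℂ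

/-- the generic matrices -/
noncomputable def XX (n N : ℕ) (j : Fin n) : Matrix (Fin N) (Fin N) (RR n N) :=
  fun k l => MvPolynomial.X (j, k, l)

/-- constants -/
noncomputable def cst (n N : ℕ) {ι ι' : Type} (P : Matrix ι ι' ℂ) : Matrix ι ι' (RR n N) :=
  P.map MvPolynomial.C

/-- the generic linear combination -/
noncomputable def BB {n m : ℕ} (N : ℕ) (a : Fin n → Matrix (Fin m) (Fin m) ℂ) :
    Matrix (Fin m × Fin N) (Fin m × Fin N) (RR n N) :=
  ∑ j, Matrix.kronecker (cst n N (a j)) (XX n N j)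

theorem cst_mul (n N : ℕ) {ι ι' ι'' : Type} [Fintype ι'] (P : Matrix ι ι' ℂ)
    (Q : Matrix ι' ι'' ℂ) : cst n N (P * Q) = cst n N P * cst n N Q := by
  rw [cst, Matrix.map_mul]; rfl

theorem cst_one (n N : ℕ) {ι : Type} [DecidableEq ι] :
    cst n N (1 : Matrix ι ι ℂ) = 1 := by
  rw [cst, Matrix.map_one _ (map_zero _) (map_one _)]

/-- conjugation of the generic matrices by `P, Q` -/
noncomputable def phi (n : ℕ) {N : ℕ} (P Q : Matrix (Fin N) (Fin N) ℂ) : RR n N →ₐ[ℂ] RR n N :=
  MvPolynomial.aeval fun p : Sg n N => (cst n N P * XX n N p.1 * cst n N Q) p.2.1 p.2.2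

theorem phi_X (n : ℕ) {N : ℕ} (P Q : Matrix (Fin N) (Fin N) ℂ) (j : Fin n) (k l : Fin N) :
    phi n P Q (MvPolynomial.X (j, k, l)) = (cst n N P * XX n N j * cst n N Q) k l := by
  rw [phi, MvPolynomial.aeval_X]

theorem phi_XX (n : ℕ) {N : ℕ} (P Q : Matrix (Fin N) (Fin N) ℂ) (j : Fin n) :
    (XX n N j).map (phi n P Q) = cst n N P * XX n N j * cst n N Q :=
  Matrix.ext fun k l => phi_X n P Q j k l

theorem phi_cst (n : ℕ) {N : ℕ} {ι ι' : Type} (P Q : Matrix (Fin N) (Fin N) ℂ)
    (S : Matrix ι ι' ℂ) : (cst n N S).map (phi n P Q) = cst n N S :=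
  Matrix.ext fun k l => (phi n P Q).commutes (S k l)

theorem map_mul' (n N : ℕ) {ι ι' ι'' : Type} [Fintype ι'] (f : RR n N →ₐ[ℂ] RR n N)
    (A : Matrix ι ι' (RR n N)) (B : Matrix ι' ι'' (RR n N)) :
    (A * B).map f = A.map f * B.map f := by
  ext i j
  simp only [Matrix.map_apply, Matrix.mul_apply, map_sum, map_mul]

theorem phi_phi (n : ℕ) {N : ℕ} (P Q P' Q' : Matrix (Fin N) (Fin N) ℂ) (f : RR n N) :
    phi n P Q (phi n P' Q' f) = phi n (P' * P) (Q * Q') f := by
  have h : (phi n P Q).comp (phi n P' Q') = phi n (P' * P) (Q * Q') := by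
    apply MvPolynomial.algHom_ext
    rintro ⟨j, k, l⟩
    rw [AlgHom.comp_apply, phi_X, phi_X]
    have h3 : (cst n N P' * XX n N j * cst n N Q').map (phi n P Q) =
        cst n N (P' * P) * XX n N j * cst n N (Q * Q') := by
      rw [map_mul', map_mul', phi_XX, phi_cst, phi_cst, cst_mul, cst_mul]
      simp only [Matrix.mul_assoc]
    exact congrFun (congrFun h3 k) l
  exact congrArg (fun g : RR n N →ₐ[ℂ] RR n N => g f) h

theorem phi_one (n : ℕ) {N : ℕ} (f : RR n N) : phi n 1 1 f = f := by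
  have h : phi n (1 : Matrix (Fin N) (Fin N) ℂ) 1 = AlgHom.id ℂ _ := by
    apply MvPolynomial.algHom_ext
    rintro ⟨j, k, l⟩
    rw [phi_X, cst_one, Matrix.one_mul, Matrix.mul_one]
    rfl
  rw [h]; rfl

/-- `1 ⊗ P` -/
noncomputable def Hh (n m : ℕ) {N : ℕ} (P : Matrix (Fin N) (Fin N) ℂ) :
    Matrix (Fin m × Fin N) (Fin m × Fin N) (RR n N) :=
  cst n N (Matrix.kronecker 1 P)

theorem Hh_mul (n m : ℕ) {N : ℕ} (P Q : Matrix (Fin N) (Fin N) ℂ) :
    Hh n m (P * Q) = Hh n m P * Hh n m Q := by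
  rw [Hh, Hh, Hh, ← cst_mul]
  congr 1
  have := Matrix.mul_kronecker_mul (1 : Matrix (Fin m) (Fin m) ℂ) (1 : Matrix (Fin m) (Fin m) ℂ) P Q
  rw [Matrix.one_mul] at this
  exact this

theorem Hh_one (n m N : ℕ) : Hh n m (1 : Matrix (Fin N) (Fin N) ℂ) = 1 := by
  rw [Hh]
  have : Matrix.kronecker (1 : Matrix (Fin m) (Fin m) ℂ) (1 : Matrix (Fin N) (Fin N) ℂ) = 1 :=
    Matrix.one_kronecker_one
  rw [this, cst_one]

theorem Hh_smul (n m : ℕ) {N : ℕ} (z : ℂ) (P : Matrix (Fin N) (Fin N) ℂ) :
    Hh n m (z • P) = (MvPolynomial.C z : RR n N) • Hh n m P := by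
  apply Matrix.ext
  intro x y
  have h : ∀ P : Matrix (Fin N) (Fin N) ℂ, Hh n m P x y =
      MvPolynomial.C ((1 : Matrix (Fin m) (Fin m) ℂ) x.1 y.1 * P x.2 y.2) := fun P => rfl
  rw [Matrix.smul_apply, h, h, Matrix.smul_apply, smul_eq_mul, smul_eq_mul, ← map_mul]
  congr 1
  ring

theorem Hh_eq (n m : ℕ) {N : ℕ} (P : Matrix (Fin N) (Fin N) ℂ) :
    Hh n m P = Matrix.kronecker 1 (cst n N P) := by
  apply Matrix.ext
  intro x y
  have h : Hh n m P x y =
      MvPolynomial.C ((1 : Matrix (Fin m) (Fin m) ℂ) x.1 y.1 * P x.2 y.2) := rfl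
  have h2 : Matrix.kronecker (1 : Matrix (Fin m) (Fin m) (RR n N)) (cst n N P) x y =
      (1 : Matrix (Fin m) (Fin m) (RR n N)) x.1 y.1 * MvPolynomial.C (P x.2 y.2) := rfl
  rw [h, h2, map_mul]
  congr 1
  rw [Matrix.one_apply, Matrix.one_apply]
  split_ifs <;> simp

theorem kron_mul {R : Type} [CommRing R] {m N : ℕ} (A A' : Matrix (Fin m) (Fin m) R)
    (B B' : Matrix (Fin N) (Fin N) R) :
    Matrix.kronecker (A * A') (B * B') = Matrix.kronecker A B * Matrix.kronecker A' B' :=
  Matrix.mul_kronecker_mul A A' B B'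

theorem phi_BB {n m N : ℕ} (a : Fin n → Matrix (Fin m) (Fin m) ℂ)
    (P Q : Matrix (Fin N) (Fin N) ℂ) :
    (BB N a).map (phi n P Q) = Hh n m P * BB N a * Hh n m Q := by
  have h1 : (BB N a).map (phi n P Q) =
      ∑ j, Matrix.kronecker (cst n N (a j)) (cst n N P * XX n N j * cst n N Q) := by
    apply Matrix.ext
    intro x y
    rw [Matrix.map_apply, BB, Matrix.sum_apply, map_sum, Matrix.sum_apply]
    refine Finset.sum_congr rfl fun j _ => ?_
    have e1 : Matrix.kronecker (cst n N (a j)) (XX n N j) x y =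
      cst n N (a j) x.1 y.1 * XX n N j x.2 y.2 := rfl
    have e2 : Matrix.kronecker (cst n N (a j)) (cst n N P * XX n N j * cst n N Q) x y =
      cst n N (a j) x.1 y.1 * (cst n N P * XX n N j * cst n N Q) x.2 y.2 := rfl
    rw [e1, e2, map_mul]
    congr 1
    · exact (phi n P Q).commutes _
    · exact congrFun (congrFun (phi_XX n P Q j) x.2) y.2
  rw [h1, Hh_eq, Hh_eq, BB, Finset.mul_sum, Finset.sum_mul]
  refine Finset.sum_congr rfl fun j _ => ?_
  rw [← kron_mul, ← kron_mul, Matrix.one_mul, Matrix.mul_one]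

theorem BB_eval {n m N : ℕ} (a : Fin n → Matrix (Fin m) (Fin m) ℂ)
    (T : Fin n → Matrix (Fin N) (Fin N) ℂ) :
    (BB N a).map (MvPolynomial.aeval (fun p : Sg n N => T p.1 p.2.1 p.2.2) : RR n N →ₐ[ℂ] ℂ) =
      ∑ j, Matrix.kronecker (a j) (T j) := by
  apply Matrix.ext
  intro x y
  rw [Matrix.map_apply, BB, Matrix.sum_apply, map_sum, Matrix.sum_apply]
  refine Finset.sum_congr rfl fun j _ => ?_
  have e1 : Matrix.kronecker (cst n N (a j)) (XX n N j) x y =
      MvPolynomial.C (a j x.1 y.1) * MvPolynomial.X (j, x.2, y.2) := rfl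
  have e2 : Matrix.kronecker (a j) (T j) x y = a j x.1 y.1 * T j x.2 y.2 := rfl
  rw [e1, e2, map_mul, MvPolynomial.aeval_X, MvPolynomial.aeval_C]
  rfl

/-- the vector of minors transforms by a constant factor -/
theorem step (h2 : S_PROP) {n m N r : ℕ} (a : Fin n → Matrix (Fin m) (Fin m) ℂ)
    (V : Matrix (Fin m × Fin N) (Fin r) (RR n N)) (hBV : BB N a * V = 0)
    (hspan : ∀ y : Fin m × Fin N → FractionRing (RR n N),
      ((BB N a).map (algebraMap (RR n N) (FractionRing (RR n N)))).mulVec y = 0 →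
        ∃ c : Fin r → FractionRing (RR n N),
          y = (V.map (algebraMap (RR n N) (FractionRing (RR n N)))).mulVec c)
    (p : RR n N) (w : (Fin r → Fin m × Fin N) → RR n N) (hp : p ≠ 0)
    (hw : ∀ s, mnr V s = p * w s) (hprim : ∀ t, (∀ s, t ∣ w s) → IsUnit t) (hw0 : w ≠ 0)
    (P Q : Matrix (Fin N) (Fin N) ℂ) (hPQ : P * Q = 1) :
    ∃ c : ℂ, c ≠ 0 ∧ ∀ s, phi n P Q (w s) = MvPolynomial.C c * Lm (Hh n m P) w s := by
  classical
  have hQP : Q * P = 1 := mul_eq_one_comm.1 hPQ
  have hHQP : Hh n m Q * Hh n m P = 1 := by rw [← Hh_mul, hQP, Hh_one]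
  have hHPQ : Hh n m P * Hh n m Q = 1 := by rw [← Hh_mul, hPQ, Hh_one]
  set K := FractionRing (RR n N)
  set al := algebraMap (RR n N) K
  have hal : Function.Injective al := IsFractionRing.injective (RR n N) K
  have hdd : ∀ f, phi n Q P (phi n P Q f) = f := by
    intro f
    rw [phi_phi, hPQ, phi_one]
  have hdd' : ∀ f, phi n P Q (phi n Q P f) = f := by
    intro f
    rw [phi_phi, hQP, phi_one]
  have hinj : Function.Injective (phi n P Q) := Function.LeftInverse.injective hdd
  -- kernel relation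
  have h3 : BB N a * (Hh n m Q * V.map (phi n P Q)) = 0 := by
    have e1 : (BB N a * V).map (phi n P Q) = 0 := by
      rw [hBV]; ext; simp
    rw [map_mul', phi_BB] at e1
    have e3 : Hh n m Q * (Hh n m P * BB N a * Hh n m Q * V.map (phi n P Q)) = 0 := by
      rw [e1, Matrix.mul_zero]
    rw [← e3]
    calc BB N a * (Hh n m Q * V.map (phi n P Q))
        = 1 * BB N a * (Hh n m Q * V.map (phi n P Q)) := by rw [Matrix.one_mul]
      _ = (Hh n m Q * Hh n m P) * BB N a * (Hh n m Q * V.map (phi n P Q)) := by rw [hHQP]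
      _ = _ := by simp only [Matrix.mul_assoc]
  set Y := Hh n m Q * V.map (phi n P Q) with hY
  have h4 : ∀ i : Fin r, ∃ c : Fin r → K, (fun x => al (Y x i)) = (V.map al).mulVec c := by
    intro i
    apply hspan
    funext x
    have e1 := congrFun (congrFun h3 x) i
    have e2 : ((BB N a).map al).mulVec (fun x => al (Y x i)) x = al ((BB N a * Y) x i) := by
      simp only [Matrix.mulVec, dotProduct, Matrix.mul_apply, Matrix.map_apply, map_sum, map_mul]
    rw [e2, e1]
    simp
  choose c hc using h4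
  let S : Matrix (Fin r) (Fin r) K := fun x i => c i x
  have h5 : Y.map al = V.map al * S := by
    ext x i
    exact congrFun (hc i) x
  have h6 : (V.map (phi n P Q)).map al = (Hh n m P * V).map al * S := by
    have e1 : V.map (phi n P Q) = Hh n m P * Y := by
      rw [hY, ← Matrix.mul_assoc, hHPQ, Matrix.one_mul]
    rw [e1, Matrix.map_mul, h5, Matrix.map_mul, Matrix.mul_assoc]
  have h7 : ∀ s, al (phi n P Q (mnr V s)) = al (Lm (Hh n m P) (mnr V) s) * S.det := by
    intro s
    have e1 := mnr_map (phi n P Q).toRingHom V s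
    have e2 : phi n P Q (mnr V s) = mnr (V.map (phi n P Q)) s := e1
    rw [e2, mnr_map, h6, mnr_mul_right, ← mnr_map, mnr_mul]
  have h8 : ∀ s t, phi n P Q (w s) * Lm (Hh n m P) w t = phi n P Q (w t) * Lm (Hh n m P) w s := by
    intro s t
    have e0 : ∀ s, Lm (Hh n m P) (mnr V) s = p * Lm (Hh n m P) w s := by
      intro s
      rw [← Lm_mul_const]
      congr 1
      funext s
      exact hw s
    have e1 : phi n P Q (mnr V s) * Lm (Hh n m P) (mnr V) t =
        phi n P Q (mnr V t) * Lm (Hh n m P) (mnr V) s := by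
      apply hal
      rw [map_mul, map_mul, h7, h7]
      ring
    rw [e0, e0, hw, hw, map_mul, map_mul] at e1
    have e2 : phi n P Q p * p ≠ 0 := mul_ne_zero (fun h => hp (hinj (by rw [h, map_zero]))) hp
    apply mul_left_cancel₀ e2
    calc phi n P Q p * p * (phi n P Q (w s) * Lm (Hh n m P) w t)
        = phi n P Q p * phi n P Q (w s) * (p * Lm (Hh n m P) w t) := by ring
      _ = phi n P Q p * phi n P Q (w t) * (p * Lm (Hh n m P) w s) := e1
      _ = _ := by ring
  -- primitivity
  have hL : Lm (Hh n m Q) (Lm (Hh n m P) w) = w := by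
    rw [Lm_Lm, hHQP, Lm_one]
  have hprim1 : ∀ t, (∀ s, t ∣ Lm (Hh n m P) w s) → IsUnit t := by
    intro t ht
    apply hprim
    intro s
    rw [← hL]
    exact Finset.dvd_sum fun s' _ => Dvd.dvd.mul_left (ht s') _
  have hprim2 : ∀ t, (∀ s, t ∣ phi n P Q (w s)) → IsUnit t := by
    intro t ht
    have e1 : IsUnit (phi n Q P t) := by
      apply hprim
      intro s
      obtain ⟨u, hu⟩ := ht s
      refine ⟨phi n Q P u, ?_⟩
      rw [← map_mul, ← hu, hdd]
    have e2 := e1.map (phi n P Q)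
    rwa [hdd'] at e2
  have hz1 : Lm (Hh n m P) w ≠ 0 := by
    intro h0
    apply hw0
    rw [← hL, h0]
    funext s
    simp [Lm]
  have hz2 : (fun s => phi n P Q (w s)) ≠ 0 := by
    intro h0
    apply hw0
    funext s
    have := congrFun h0 s
    apply hinj
    rw [Pi.zero_apply, map_zero]
    exact this
  obtain ⟨c0, hc0, hc1⟩ := h2 (Sg n N) (Fin r → Fin m × Fin N) (Lm (Hh n m P) w)
    (fun s => phi n P Q (w s)) hprim1 hprim2 hz1 hz2 (by
      intro s t
      have := h8 t s
      rw [mul_comm, this, mul_comm])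
  exact ⟨c0, hc0, hc1⟩

theorem reg (h1 : S_PRIM) (h2 : S_PROP) : S_REG := by
  classical
  intro n m N a hm hN hT
  obtain ⟨T0, hT0⟩ := hT
  by_contra hcon
  push Not at hcon
  have : NeZero N := ⟨by omega⟩
  -- the generic determinant vanishes
  have hdet : (BB N a).det = 0 := by
    apply MvPolynomial.funext
    intro x
    rw [map_zero]
    have e1 := hcon fun j => (fun k l => x (j, k, l) : Matrix (Fin N) (Fin N) ℂ)
    rw [← BB_eval a fun j => (fun k l => x (j, k, l) : Matrix (Fin N) (Fin N) ℂ)] at e1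
    have e2 := RingHom.map_det
      (MvPolynomial.aeval (fun p : Sg n N => x (p.1, p.2.1, p.2.2)) : RR n N →ₐ[ℂ] ℂ).toRingHom
      (BB N a)
    have e3 : (MvPolynomial.aeval (fun p : Sg n N => x (p.1, p.2.1, p.2.2)) : RR n N →ₐ[ℂ] ℂ)
        (BB N a).det = 0 := by
      rw [← e1]; exact e2
    have e4 : MvPolynomial.eval x (BB N a).det = MvPolynomial.aeval x (BB N a).det := by
      rw [MvPolynomial.aeval_eq_eval]
    rw [e4]
    exact e3
  obtain ⟨r, V, hr, hBV, hV0, hspan⟩ := exists_kernel (K := FractionRing (RR n N)) (BB N a)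
  have hrank : (m - 1) * N < ((BB N a).map
      (algebraMap (RR n N) (FractionRing (RR n N)))).rank := by
    refine lt_of_lt_of_le hT0 ?_
    rw [← BB_eval]
    exact rank_le_of_spec _ _
  have hrN : r < N := by
    rw [Fintype.card_prod, Fintype.card_fin, Fintype.card_fin] at hr
    have e1 : m * N = (m - 1) * N + N := by
      obtain ⟨k, rfl⟩ : ∃ k, m = k + 1 := ⟨m - 1, by omega⟩
      simp [add_mul]
    omega
  have hr0 : 0 < r := by
    by_contra h0
    have h0' : r = 0 := by omega
    subst h0'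
    have e1 : ((BB N a).map (algebraMap (RR n N) (FractionRing (RR n N)))).det = 0 := by
      have := RingHom.map_det (algebraMap (RR n N) (FractionRing (RR n N))) (BB N a)
      rw [hdet, map_zero] at this
      exact this.symm
    obtain ⟨y, hy0, hy⟩ := Matrix.exists_mulVec_eq_zero_iff.2 e1
    obtain ⟨c, hc⟩ := hspan y hy
    apply hy0
    rw [hc]
    funext x
    simp [Matrix.mulVec, dotProduct]
  obtain ⟨p, w, hp, hw, hprim⟩ := h1 (Sg n N) (Fin r → Fin m × Fin N) (mnr V) hV0
  have hw0 : w ≠ 0 := by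
    intro h0
    apply hV0
    funext s
    rw [hw, h0]
    simp
  obtain ⟨ζ, hζ⟩ : ∃ ζ : ℂ, IsPrimitiveRoot ζ N :=
    ⟨_, Complex.isPrimitiveRoot_exp N (by omega)⟩
  have hζ0 : ζ ≠ 0 := hζ.ne_zero (by omega)
  set Θ := clk N ζ with hΘ
  set Θ' := clk N ζ⁻¹
  set Sh := shf N with hS
  set St := (shf N).transpose
  have hΘ1 : Θ * Θ' = 1 := clk_inv N ζ hζ0
  have hS1 : Sh * St = 1 := shf_inv N
  have hΘ2 : Θ' * Θ = 1 := mul_eq_one_comm.1 hΘ1
  have hS2 : St * Sh = 1 := mul_eq_one_comm.1 hS1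
  have hc : Sh * Θ = ζ • (Θ * Sh) := shf_clk N ζ hζ.pow_eq_one
  have hc' : Θ' * St = ζ⁻¹ • (St * Θ') := by
    -- inverses
    have e1 : (Sh * Θ) * (Θ' * St) = 1 := by
      rw [Matrix.mul_assoc, ← Matrix.mul_assoc Θ, hΘ1, Matrix.one_mul, hS1]
    have e2 : (Sh * Θ) * (ζ⁻¹ • (St * Θ')) = 1 := by
      rw [hc, Matrix.smul_mul, Matrix.mul_smul, smul_smul, mul_inv_cancel₀ hζ0, one_smul,
        Matrix.mul_assoc, ← Matrix.mul_assoc Sh, hS1, Matrix.one_mul, hΘ1]
    have e3 : (Θ' * St) * (Sh * Θ) = 1 := mul_eq_one_comm.1 e1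
    calc Θ' * St = Θ' * St * ((Sh * Θ) * (ζ⁻¹ • (St * Θ'))) := by rw [e2, Matrix.mul_one]
      _ = (Θ' * St * (Sh * Θ)) * (ζ⁻¹ • (St * Θ')) := by rw [← Matrix.mul_assoc]
      _ = _ := by rw [e3, Matrix.one_mul]
  obtain ⟨c1, hc1, hs1⟩ := step h2 a V hBV hspan p w hp hw hprim hw0 Θ Θ' hΘ1
  obtain ⟨c2, hc2, hs2⟩ := step h2 a V hBV hspan p w hp hw hprim hw0 Sh St hS1
  -- the two compositions
  have key : ∀ (P Q P' Q' : Matrix (Fin N) (Fin N) ℂ) (d d' : ℂ),
      (∀ s, phi n P Q (w s) = MvPolynomial.C d * Lm (Hh n m P) w s) →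
      (∀ s, phi n P' Q' (w s) = MvPolynomial.C d' * Lm (Hh n m P') w s) →
      ∀ s, phi n (P' * P) (Q * Q') (w s) =
        MvPolynomial.C (d * d') * Lm (Hh n m (P' * P)) w s := by
    intro P Q P' Q' d d' h h' s
    rw [← phi_phi, h' s, map_mul]
    have e1 : phi n P Q (MvPolynomial.C d') = MvPolynomial.C d' := (phi n P Q).commutes d'
    have e2 : phi n P Q (Lm (Hh n m P') w s) = MvPolynomial.C d * Lm (Hh n m (P' * P)) w s := by
      have e3 := Lm_map (phi n P Q).toRingHom (Hh n m P') w s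
      have e4 : phi n P Q (Lm (Hh n m P') w s) =
          Lm ((Hh n m P').map (phi n P Q)) (fun s => phi n P Q (w s)) s := e3
      have e5 : (Hh n m P').map (phi n P Q) = Hh n m P' := phi_cst n P Q _
      rw [e4, e5, funext h, Lm_mul_const, Lm_Lm, Hh_mul]
    rw [e1, e2, map_mul]
    ring
  have k1 := key Θ Θ' Sh St c1 c2 hs1 hs2
  have k2 := key Sh St Θ Θ' c2 c1 hs2 hs1
  have hphi : ∀ f, phi n (Sh * Θ) (Θ' * St) f = phi n (Θ * Sh) (St * Θ') f := by
    have e1 : phi n (Sh * Θ) (Θ' * St) = phi n (Θ * Sh) (St * Θ') := by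
      apply MvPolynomial.algHom_ext
      rintro ⟨j, k, l⟩
      rw [phi_X, phi_X]
      have e2 : cst n N (Sh * Θ) * XX n N j * cst n N (Θ' * St) =
          cst n N (Θ * Sh) * XX n N j * cst n N (St * Θ') := by
        have e3 : ∀ (z : ℂ) (M : Matrix (Fin N) (Fin N) ℂ), cst n N (z • M) =
            (MvPolynomial.C z : RR n N) • cst n N M := by
          intro z M
          apply Matrix.ext
          intro x y
          exact map_mul (MvPolynomial.C : ℂ →+* RR n N) z (M x y)
        rw [hc, hc', e3, e3, Matrix.smul_mul, Matrix.smul_mul, Matrix.mul_smul, smul_smul,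
          ← map_mul, mul_inv_cancel₀ hζ0, map_one, one_smul]
      exact congrFun (congrFun e2 k) l
    intro f
    rw [e1]
  have hfin : ∀ s, (MvPolynomial.C (ζ ^ r) - 1) * Lm (Hh n m (Θ * Sh)) w s = 0 := by
    intro s
    have e1 := k1 s
    rw [hphi, k2 s, hc, Hh_smul, Lm_smul_left] at e1
    have e2 : (MvPolynomial.C (c1 * c2) : RR n N) ≠ 0 := by
      rw [Ne, MvPolynomial.C_eq_zero]
      exact mul_ne_zero hc1 hc2
    apply mul_left_cancel₀ e2
    rw [mul_zero, map_pow]
    rw [mul_comm c2 c1] at e1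
    have e3 : (MvPolynomial.C (c1 * c2) : RR n N) *
        ((MvPolynomial.C ζ ^ r - 1) * Lm (Hh n m (Θ * Sh)) w s) =
        MvPolynomial.C (c1 * c2) * (MvPolynomial.C ζ ^ r * Lm (Hh n m (Θ * Sh)) w s) -
        MvPolynomial.C (c1 * c2) * Lm (Hh n m (Θ * Sh)) w s := by ring
    rw [e3, ← e1, sub_self]
  have hne : Lm (Hh n m (Θ * Sh)) w ≠ 0 := by
    intro h0
    apply hw0
    have e1 : Lm (Hh n m (St * Θ')) (Lm (Hh n m (Θ * Sh)) w) = w := by
      rw [Lm_Lm, ← Hh_mul]
      have : St * Θ' * (Θ * Sh) = 1 := by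
        rw [Matrix.mul_assoc, ← Matrix.mul_assoc Θ', hΘ2, Matrix.one_mul, hS2]
      rw [this, Hh_one, Lm_one]
    rw [← e1, h0]
    funext s
    simp [Lm]
  obtain ⟨s, hs⟩ := Function.ne_iff.1 hne
  have e1 := hfin s
  rw [mul_eq_zero] at e1
  rcases e1 with e1 | e1
  · have e2 : (MvPolynomial.C (ζ ^ r - 1) : RR n N) = 0 := by
      rw [map_sub, map_one]; exact e1
    rw [MvPolynomial.C_eq_zero, sub_eq_zero] at e2
    have e3 := hζ.dvd_of_pow_eq_one r e2
    have e4 := Nat.le_of_dvd hr0 e3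
    omega
  · exact hs e1

end Pool.Agent.W18.GB
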